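import Pool.Agent.MVD.Stmts

/-!
Squad MVD, row FAC: a nonempty factor without separators lies in one block.
-/

namespace Pool.Agent.MVD.H66

open Pool.Agent.MVD

private lemma bw_cons (r : ℕ) (R : List ℕ) (B : ℕ → List ℕ) :
    Bw (r :: R) B = (B r ++ [3 * r + 2]) ++ Bw R B := by
  simp [Bw]

theorem fac : FacStmt := by
  intro R B A F C hB hF hne h
  induction R generalizing A with
  | nil =>
    exfalso
    have h' : ([] : List ℕ) = A ++ (F ++ C) := by
      simpa [Bw] using h
    have h2 := congrArg List.length h'
    simp only [List.length_nil, List.length_append] at h2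
    exact hne (List.length_eq_zero_iff.mp (by omega))
  | cons r R' ih =>
    have hB' : ∀ s ∈ R', SFr (B s) := fun s hs => hB s (List.mem_cons_of_mem _ hs)
    rw [bw_cons] at h
    have key : ∀ A' : List ℕ, Bw R' B = A' ++ (F ++ C) → A = (B r ++ [3 * r + 2]) ++ A' →
        ∃ (R1 : List ℕ) (s : ℕ) (R2 a c : List ℕ), r :: R' = R1 ++ s :: R2 ∧
          B s = a ++ (F ++ c) ∧ A = Bw R1 B ++ a ∧ C = c ++ (3 * s + 2) :: Bw R2 B := by
      intro A' h1 h2
      obtain ⟨R1, s, R2, a, c, e1, e2, e3, e4⟩ := ih A' hB' h1
      refine ⟨r :: R1, s, R2, a, c, by rw [e1]; rfl, e2, ?_, e4⟩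
      rw [h2, e3, bw_cons, List.append_assoc (B r ++ [3 * r + 2])]
    rcases List.append_eq_append_iff.mp h with ⟨a', h1, h2⟩ | ⟨c', h1, h2⟩
    · exact key a' h2 h1
    · -- h1 : B r ++ [t] = A ++ c', h2 : F ++ C = c' ++ Bw R' B
      rcases List.eq_nil_or_concat c' with hc | ⟨c0, x, hc⟩
      · subst hc
        refine key [] ?_ ?_
        · rw [List.nil_append] at h2 ⊢
          exact h2.symm
        · rw [List.append_nil] at h1 ⊢
          exact h1.symm
      · rw [List.concat_eq_append] at hc
        rw [hc, ← List.append_assoc] at h1
        have h3 := List.append_inj' h1 rfl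
        have hx : x = 3 * r + 2 := by
          have := h3.2
          simp only [List.cons.injEq, and_true] at this
          exact this.symm
        have hBr : B r = A ++ c0 := h3.1
        have hnot : ¬ (3 * r + 2) ∈ F := by
          intro hm
          exact hF _ hm (by omega)
        rcases List.append_eq_append_iff.mp h2 with ⟨a'', h4, h5⟩ | ⟨c'', h4, h5⟩
        · -- c' = F ++ a'', C = a'' ++ Bw R' B
          rcases List.eq_nil_or_concat a'' with ha | ⟨c1, y, ha⟩
          · exfalso
            apply hnot
            rw [ha, List.append_nil] at h4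
            rw [← h4, hc, hx]
            simp
          · rw [List.concat_eq_append] at ha
            rw [hc, ha, ← List.append_assoc] at h4
            have h6 := List.append_inj' h4 rfl
            have hy : y = 3 * r + 2 := by
              have := h6.2
              simp only [List.cons.injEq, and_true] at this
              rw [← this, hx]
            refine ⟨[], r, R', A, c1, rfl, ?_, ?_, ?_⟩
            · rw [hBr, h6.1]
            · simp [Bw]
            · rw [h5, ha, hy]
              simp
        · -- F = c' ++ c''
          exfalso
          apply hnot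
          rw [h4, hc, hx]
          simp

end Pool.Agent.MVD.H66
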