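import Pool.Agent.MVD.StmtsLoc

/-!
Squad MVD, row IRL: words can be inserted at the ends of the blocks.
-/

set_option autoImplicit false

namespace Pool.Agent.MVD.H66

open Pool.Agent.MVD Pool.Agent.Helper14_MV Pool.Agent.Helper2_MV

private lemma irl_bw_cons (r : ℕ) (R : List ℕ) (B : ℕ → List ℕ) :
    Bw (r :: R) B = (B r ++ [3 * r + 2]) ++ Bw R B := by
  simp [Bw]

/-- The word inserted at the beginning of the first block of `R`. -/
private def hdu (U : ℕ → List ℕ) (Ue : List ℕ) : List ℕ → List ℕ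
  | [] => Ue
  | r :: _ => U r

/-- The word inserted after the separator `r` of `R`. -/
private def nxu (U : ℕ → List ℕ) (Ue : List ℕ) : List ℕ → ℕ → List ℕ
  | [], _ => []
  | a :: R, r => if r = a then hdu U Ue R else nxu U Ue R r

private lemma flat_sfr (g : ℕ → List ℕ) (hg : ∀ c, c % 3 ≠ 2 → g c = [c]) (l : List ℕ)
    (hl : SFr l) : l.flatMap g = l := by
  induction l with
  | nil => rfl
  | cons a l ih =>
    rw [List.flatMap_cons, hg a (hl a List.mem_cons_self),
      ih fun c hc => hl c (List.mem_cons_of_mem _ hc)]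
    rfl

private lemma flat_key (U V : ℕ → List ℕ) (Ue : List ℕ) (g : ℕ → List ℕ)
    (hg : ∀ c, c % 3 ≠ 2 → g c = [c]) (B : ℕ → List ℕ) (e : List ℕ) (he : SFr e) (R : List ℕ)
    (hR : R.Nodup) (hB : ∀ r ∈ R, SFr (B r))
    (hgR : ∀ r ∈ R, g (3 * r + 2) = V r ++ ([3 * r + 2] ++ nxu U Ue R r)) :
    hdu U Ue R ++ (Bw R B ++ e).flatMap g =
      Bw R (fun r => U r ++ (B r ++ V r)) ++ (Ue ++ e) := by
  induction R with
  | nil =>
    have h1 : Bw [] B = [] := rfl
    have h2 : Bw [] (fun r => U r ++ (B r ++ V r)) = [] := rfl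
    rw [h1, h2, List.nil_append, List.nil_append, flat_sfr g hg e he]
    rfl
  | cons r R ih =>
    have hr : r ∉ R := (List.nodup_cons.mp hR).1
    have ih' := ih (List.nodup_cons.mp hR).2 (fun s hs => hB s (List.mem_cons_of_mem _ hs))
      (fun s hs => by
        have h1 := hgR s (List.mem_cons_of_mem _ hs)
        have h2 : nxu U Ue (r :: R) s = nxu U Ue R s := by
          have h3 : s ≠ r := fun h => hr (h ▸ hs)
          simp only [nxu, if_neg h3]
        rw [h2] at h1
        exact h1)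
    have h1 := hgR r List.mem_cons_self
    have h2 : nxu U Ue (r :: R) r = hdu U Ue R := by
      simp only [nxu, if_true]
    rw [h2] at h1
    rw [irl_bw_cons, irl_bw_cons]
    simp only [List.flatMap_append, List.append_assoc] at ih' ⊢
    rw [flat_sfr g hg (B r) (hB r List.mem_cons_self)]
    have h3 : [3 * r + 2].flatMap g = V r ++ ([3 * r + 2] ++ hdu U Ue R) := by
      rw [List.flatMap_cons, h1, List.flatMap_nil, List.append_nil]
    rw [h3]
    simp only [List.append_assoc]
    rw [ih']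
    rfl

theorem irl : IrlStmt := by
  intro β R B B' U V e e' Ue Ve hR hB hB' he he' h
  let g : ℕ → List ℕ := fun c =>
    if c % 3 = 2 then V (c / 3) ++ ([c] ++ nxu U Ue R (c / 3)) else [c]
  have hg : ∀ c, c % 3 ≠ 2 → g c = [c] := fun c hc => if_neg hc
  have hgR : ∀ r ∈ R, g (3 * r + 2) = V r ++ ([3 * r + 2] ++ nxu U Ue R r) := by
    intro r _
    have h1 : (3 * r + 2) % 3 = 2 := by omega
    have h2 : (3 * r + 2) / 3 = r := by omega
    change (if (3 * r + 2) % 3 = 2 then
      V ((3 * r + 2) / 3) ++ ([3 * r + 2] ++ nxu U Ue R ((3 * r + 2) / 3)) else [3 * r + 2]) = _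
    rw [if_pos h1, h2]
  have k1 := flat_key U V Ue g hg B e he R hR hB hgR
  have k2 := flat_key U V Ue g hg B' e' he' R hR hB' hgR
  have h1 : RR β (hdu U Ue R ++ (Bw R B ++ e).flatMap g) (hdu U Ue R ++ (Bw R B' ++ e').flatMap g) :=
    (RR.refl _).append (h.sub g)
  have h2 := h1.append (RR.refl (β := β) Ve)
  rw [k1, k2] at h2
  simpa only [List.append_assoc] using h2

end Pool.Agent.MVD.H66
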